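import Pool.Agent.H81.FX.Targets

set_option autoImplicit false

namespace Pool.Agent.H81.FCX

open Pool.Agent.H81.FX Finset Filter Topology

theorem min_one_add {a b : ℝ} (ha : 0 ≤ a) (hb : 0 ≤ b) : min 1 (a + b) ≤ min 1 a + min 1 b := by
  rcases le_total 1 a with h | h
  · rw [min_eq_left h]
    have : 0 ≤ min 1 b := le_min zero_le_one hb
    exact (min_le_left _ _).trans (by linarith)
  · rcases le_total 1 b with h' | h'
    · rw [min_eq_left h']
      have : 0 ≤ min 1 a := le_min zero_le_one ha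
      exact (min_le_left _ _).trans (by linarith)
    · rw [min_eq_right h, min_eq_right h']
      exact min_le_right _ _

theorem min_one_sum {α : Type} (A : Finset α) (y : α → ℝ) (hy : ∀ n ∈ A, 0 ≤ y n) :
    min 1 (∑ n ∈ A, y n) ≤ ∑ n ∈ A, min 1 (y n) := by
  classical
  induction A using Finset.induction_on with
  | empty => simp
  | insert a A ha ih =>
    rw [sum_insert ha, sum_insert ha]
    have h1 := ih fun n hn => hy n (mem_insert_of_mem hn)
    have h2 := min_one_add (hy a (mem_insert_self _ _))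
      (sum_nonneg fun n hn => hy n (mem_insert_of_mem hn) : 0 ≤ ∑ n ∈ A, y n)
    linarith

theorem iv_inj {ι : Type} {s s' : Lt ι} (h : iv s = iv s') : s = s' := by
  unfold iv at h
  simp only [Prod.mk.injEq] at h
  exact Prod.ext h.1 (by simpa using h.2)

theorem ite_nonneg_of {a : ℝ} {p : Prop} [Decidable p] (h : 0 ≤ a) : 0 ≤ (if p then a else 0) := by
  split_ifs
  · exact h
  · exact le_rfl

/-- the weight of a walker in the class `c` -/
noncomputable def kc {ι : Type} (θ : ℝ) (β : FreeGroup ι → ℝ) (c : ℤ) (v : FreeGroup ι) : ℝ :=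
  if θ / 4 ≤ (4 : ℝ) ^ c * β v then Real.sqrt ((4 : ℝ) ^ c * β v) else 0

theorem kc_nonneg {ι : Type} (θ : ℝ) (β : FreeGroup ι → ℝ) (c : ℤ) (v : FreeGroup ι) :
    0 ≤ kc θ β c v := by
  unfold kc
  split_ifs
  · exact Real.sqrt_nonneg _
  · exact le_rfl

theorem kc_sq {ι : Type} {θ : ℝ} (hθ : 0 < θ) {β : FreeGroup ι → ℝ} (hβ : ∀ v, 0 ≤ β v) (c : ℤ)
    (v : FreeGroup ι) : (4 : ℝ) ^ c * β v ≤ θ / 4 + kc θ β c v ^ 2 := by
  unfold kc
  have h0 : 0 ≤ (4 : ℝ) ^ c * β v := mul_nonneg (by positivity) (hβ v)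
  split_ifs with h
  · rw [Real.sq_sqrt h0]
    linarith
  · push Not at h
    nlinarith

theorem kc_alt {ι : Type} {θ : ℝ} (hθ : 0 < θ) (β : FreeGroup ι → ℝ) (c : ℤ)
    (v : FreeGroup ι) : kc θ β c v = 0 ∨ Real.sqrt θ / 2 ≤ kc θ β c v := by
  unfold kc
  split_ifs with h
  · right
    have h4 : Real.sqrt (θ / 4) = Real.sqrt θ / 2 := by
      rw [show θ / 4 = θ / (2 : ℝ) ^ 2 by norm_num, Real.sqrt_div hθ.le, Real.sqrt_sq (by norm_num)]
    rw [← h4]
    exact Real.sqrt_le_sqrt h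
  · exact Or.inl rfl

theorem kc_sum (hPOW : T_POW) {ι : Type} {θ : ℝ} (hθ : 0 < θ) {β : FreeGroup ι → ℝ}
    (hβ : ∀ v, 0 ≤ β v) (C : Finset ℤ) (v : FreeGroup ι) :
    ∑ c ∈ C, (4 : ℝ) ^ (-c) * kc θ β c v ≤ 4 / Real.sqrt θ * β v := by
  have hsθ : 0 < Real.sqrt θ := Real.sqrt_pos.2 hθ
  have h2 : ∀ c : ℤ, ((2 : ℝ) ^ c) ^ 2 = 4 ^ c := by
    intro c
    rw [← zpow_natCast, ← zpow_mul, mul_comm, zpow_mul]
    norm_num
  have hM : 0 ≤ 2 * Real.sqrt (β v) / Real.sqrt θ := by positivity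
  have key := hPOW (C.filter fun c => θ / 4 ≤ (4 : ℝ) ^ c * β v)
    (2 * Real.sqrt (β v) / Real.sqrt θ) ?_ hM
  · have e1 : ∑ c ∈ C, (4 : ℝ) ^ (-c) * kc θ β c v =
        ∑ c ∈ C.filter (fun c => θ / 4 ≤ (4 : ℝ) ^ c * β v), (2 : ℝ) ^ (-c) * Real.sqrt (β v) := by
      rw [sum_filter]
      refine sum_congr rfl fun c _ => ?_
      unfold kc
      split_ifs with h
      · rw [Real.sqrt_mul (by positivity), ← h2 c, Real.sqrt_sq (by positivity), ← mul_assoc]
        congr 1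
        rw [← h2 (-c), sq, mul_assoc, ← zpow_add₀ (by norm_num : (2 : ℝ) ≠ 0)]
        simp
      · simp
    rw [e1, ← sum_mul]
    calc (∑ c ∈ C.filter (fun c => θ / 4 ≤ (4 : ℝ) ^ c * β v), (2 : ℝ) ^ (-c)) * Real.sqrt (β v)
        ≤ (2 * (2 * Real.sqrt (β v) / Real.sqrt θ)) * Real.sqrt (β v) :=
          mul_le_mul_of_nonneg_right key (Real.sqrt_nonneg _)
      _ = 4 / Real.sqrt θ * (Real.sqrt (β v) * Real.sqrt (β v)) := by ring
      _ = 4 / Real.sqrt θ * β v := by rw [Real.mul_self_sqrt (hβ v)]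
  · intro c hc
    have h := (mem_filter.1 hc).2
    rw [← h2 c] at h
    have hp : (0 : ℝ) < 2 ^ c := by positivity
    have h3 : (2 : ℝ) ^ (-c) = 1 / 2 ^ c := by rw [zpow_neg, one_div]
    rw [h3, div_le_div_iff₀ hp hsθ, one_mul]
    have h4 : Real.sqrt θ ^ 2 ≤ (2 * Real.sqrt (β v) * 2 ^ c) ^ 2 := by
      rw [Real.sq_sqrt hθ.le, mul_pow, mul_pow, Real.sq_sqrt (hβ v)]
      nlinarith
    exact le_of_sq_le_sq h4 (by positivity)
where
  le_of_sq_le_sq {a b : ℝ} (h : a ^ 2 ≤ b ^ 2) (hb : 0 ≤ b) : a ≤ b := by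
    exact le_trans (le_abs_self a) (abs_le_of_sq_le_sq' h hb |> fun h => abs_le.2 h)

/-- the class of a positive number -/
theorem exists_class (V : ℝ) (hV : 0 < V) : ∃ c : ℤ, V ≤ (4 : ℝ) ^ (-c) ∧ (4 : ℝ) ^ (-c) < 4 * V := by
  obtain ⟨n, hn⟩ := exists_mem_Ioc_zpow hV (by norm_num : (1 : ℝ) < 4)
  refine ⟨-(n + 1), ?_, ?_⟩
  · rw [neg_neg]
    exact hn.2
  · rw [neg_neg, zpow_add₀ (by norm_num : (4 : ℝ) ≠ 0), zpow_one]
    linarith [hn.1]

section
variable {ι : Type} [DecidableEq ι]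

/-- the inequality at one vertex -/
theorem vertex {κ θ : ℝ} (hκ : 0 < κ) (hθ : 0 < θ) (t : List (Lt ι)) (w : ℕ → ℝ)
    (hw : ∀ n < t.length, 0 ≤ w n) {β : FreeGroup ι → ℝ} (hβ : ∀ v, 0 ≤ β v) (x : FreeGroup ι)
    (s : Lt ι) (hs : Wt t w s ≤ κ) {V : ℝ} {c : ℤ} (h1 : V ≤ (4 : ℝ) ^ (-c))
    (h2 : (4 : ℝ) ^ (-c) < 4 * V) :
    min V (Fw t w β x s) ≤ κ * θ * V + (4 : ℝ) ^ (-c) * Yw t w (fun v => kc θ β c v ^ 2) x s := by
  have hc : (0 : ℝ) < 4 ^ (-c) := by positivity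
  have hcc : (4 : ℝ) ^ (-c) * 4 ^ c = 1 := by
    rw [← zpow_add₀ (by norm_num : (4 : ℝ) ≠ 0)]; simp
  -- the sum over the marks
  set y : ℕ → ℝ := fun n => if t[n]? = some s then w n * kc θ β c (x * (pre t n)⁻¹) ^ 2 else 0
    with hy
  have hy0 : ∀ n ∈ range t.length, 0 ≤ y n := by
    intro n hn
    rw [hy]
    simp only
    split_ifs
    · exact mul_nonneg (hw n (mem_range.1 hn)) (sq_nonneg _)
    · exact le_rfl
  have hF : Fw t w β x s ≤ (4 : ℝ) ^ (-c) * (κ * θ / 4 + ∑ n ∈ range t.length, y n) := by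
    have h3 : Fw t w β x s ≤ ∑ n ∈ range t.length,
        ((4 : ℝ) ^ (-c) * ((if t[n]? = some s then w n else 0) * (θ / 4) + y n)) := by
      unfold Fw
      refine sum_le_sum fun n hn => ?_
      rw [hy]
      simp only
      split_ifs with h
      · have h4 := kc_sq hθ hβ c (x * (pre t n)⁻¹)
        have hwn := hw n (mem_range.1 hn)
        calc w n * β (x * (pre t n)⁻¹) = 4 ^ (-c) * (w n * (4 ^ c * β (x * (pre t n)⁻¹))) := by
              rw [show (4 : ℝ) ^ (-c) * (w n * (4 ^ c * β (x * (pre t n)⁻¹))) =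
                (4 ^ (-c) * 4 ^ c) * (w n * β (x * (pre t n)⁻¹)) by ring, hcc, one_mul]
          _ ≤ 4 ^ (-c) * (w n * (θ / 4 + kc θ β c (x * (pre t n)⁻¹) ^ 2)) :=
              mul_le_mul_of_nonneg_left (mul_le_mul_of_nonneg_left h4 hwn) hc.le
          _ = _ := by ring
      · simp
    refine h3.trans ?_
    rw [← mul_sum, sum_add_distrib, ← sum_mul]
    refine mul_le_mul_of_nonneg_left ?_ hc.le
    have h5 : (∑ n ∈ range t.length, if t[n]? = some s then w n else 0) ≤ κ := hs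
    have h6 := mul_le_mul_of_nonneg_right h5 (by positivity : 0 ≤ θ / 4)
    linarith
  have hmin : min V (Fw t w β x s) ≤ (4 : ℝ) ^ (-c) *
      min 1 (κ * θ / 4 + ∑ n ∈ range t.length, y n) := by
    rw [mul_min_of_nonneg _ _ hc.le, mul_one]
    exact min_le_min h1 hF
  refine hmin.trans ?_
  have h7 : min 1 (κ * θ / 4 + ∑ n ∈ range t.length, y n) ≤
      κ * θ / 4 + Yw t w (fun v => kc θ β c v ^ 2) x s := by
    have h8 := min_one_add (by positivity : 0 ≤ κ * θ / 4) (sum_nonneg hy0)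
    have h9 := min_one_sum (range t.length) y hy0
    have h10 : ∑ n ∈ range t.length, min 1 (y n) = Yw t w (fun v => kc θ β c v ^ 2) x s := by
      unfold Yw
      refine sum_congr rfl fun n _ => ?_
      rw [hy]
      simp only
      split_ifs
      · rfl
      · simp
    have h11 : min 1 (κ * θ / 4) ≤ κ * θ / 4 := min_le_right _ _
    linarith
  have h12 := mul_le_mul_of_nonneg_left h7 hc.le
  have h13 : (4 : ℝ) ^ (-c) * (κ * θ / 4) ≤ κ * θ * V := by
    have : (4 : ℝ) ^ (-c) * (κ * θ / 4) ≤ 4 * V * (κ * θ / 4) :=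
      mul_le_mul_of_nonneg_right h2.le (by positivity)
    linarith
  linarith

theorem card_notUp (x : FreeGroup ι) (𝒥 : Finset (Lt ι)) :
    (𝒥.filter fun s => ¬ Up x s).card ≤ 1 := by
  rw [card_le_one]
  intro a ha b hb
  have h1 := (mem_filter.1 ha).2
  have h2 := (mem_filter.1 hb).2
  unfold Up at h1 h2
  push Not at h1 h2
  rw [h1] at h2
  exact iv_inj (Option.some.inj h2)

end

theorem pf_ALL (hONEC : T_ONEC) (hPOW : T_POW) (hJAY : T_JAY) : T_ALL := by
  intro κ θ hκ hθ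
  have hsθ : 0 < Real.sqrt θ := Real.sqrt_pos.2 hθ
  have hk₀pos : 0 < Real.sqrt θ / 2 := by positivity
  obtain ⟨Λ, hΛ0, hΛt, hΛ⟩ := hONEC κ (Real.sqrt θ / 2) hκ hk₀pos
  refine ⟨fun N => Λ N * (4 / Real.sqrt θ), ?_, ?_⟩
  · have : (fun N : ℕ => Λ N * (4 / Real.sqrt θ) / (N : ℝ)) =
        fun N : ℕ => (4 / Real.sqrt θ) * (Λ N / N) := by funext N; ring
    rw [this]
    simpa using hΛt.const_mul (4 / Real.sqrt θ)
  intro N hN ι _ t ht w hw 𝒥 h𝒥 hWt hw0 S β hβ X V hV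
  obtain ⟨hβ0, hβS, hβ1⟩ := hβ
  have hR0 : 0 ≤ Λ N * (4 / Real.sqrt θ) := mul_nonneg (hΛ0 N) (by positivity)
  by_cases hne : t = []
  · subst hne
    have h1 : ∑ s ∈ 𝒥, ∑ x ∈ X, min (V x) (Fw ([] : List (Lt ι)) w β x s) ≤ 0 := by
      refine sum_nonpos fun s _ => sum_nonpos fun x _ => ?_
      unfold Fw
      simp
    have h2 : 0 ≤ ∑ x ∈ X, V x := sum_nonneg hV
    have h3 : 0 ≤ (2 + κ * θ * N) * ∑ x ∈ X, V x := mul_nonneg (by positivity) h2
    linarith
  -- weights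
  have hWt0 : ∀ s, 0 ≤ Wt t w s := by
    intro s
    unfold Wt
    refine sum_nonneg fun n hn => ?_
    split_ifs
    · exact hw n (mem_range.1 hn)
    · exact le_rfl
  have hwκ : ∀ n < t.length, 0 ≤ w n ∧ w n ≤ κ := by
    intro n hn
    refine ⟨hw n hn, ?_⟩
    have hs : t[n]? = some t[n] := List.getElem?_eq_getElem hn
    by_cases hJ : t[n] ∈ 𝒥
    · refine le_trans ?_ (hWt _ hJ)
      unfold Wt
      have h1 : (if t[n]? = some t[n] then w n else 0) ≤
          ∑ i ∈ range t.length, if t[i]? = some t[n] then w i else 0 := by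
        refine single_le_sum (f := fun i => if t[i]? = some t[n] then w i else 0) ?_
          (mem_range.2 hn)
        intro i hi
        split_ifs
        · exact hw i (mem_range.1 hi)
        · exact le_rfl
      rwa [if_pos hs] at h1
    · rw [hw0 n _ hs hJ]
      exact hκ.le
  have hwsum : ∑ n ∈ range t.length, w n ≤ κ * N := by
    have h1 : ∑ n ∈ range t.length, w n = ∑ s ∈ 𝒥, Wt t w s := by
      unfold Wt
      rw [sum_comm]
      refine sum_congr rfl fun n hn => ?_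
      have hn' := mem_range.1 hn
      have hs : t[n]? = some t[n] := List.getElem?_eq_getElem hn'
      by_cases hJ : t[n] ∈ 𝒥
      · rw [sum_eq_single (t[n])]
        · rw [if_pos hs]
        · intro b _ hb
          rw [if_neg]
          rw [hs]
          intro h
          exact hb (Option.some.inj h).symm
        · intro h
          exact absurd hJ h
      · rw [hw0 n _ hs hJ]
        symm
        refine sum_eq_zero fun s hsJ => ?_
        split_ifs <;> rfl
    rw [h1]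
    calc ∑ s ∈ 𝒥, Wt t w s ≤ ∑ s ∈ 𝒥, κ := sum_le_sum hWt
      _ = 𝒥.card * κ := by rw [sum_const, nsmul_eq_mul]
      _ ≤ κ * N := by
        rw [mul_comm]
        exact mul_le_mul_of_nonneg_left (by exact_mod_cast h𝒥) hκ.le
  -- directions and classes
  have hJex : ∀ c : ℤ, ∃ J : FreeGroup ι → Lt ι, ∀ x s, Up x s → 0 < G t (kc θ β c) x s →
      Up x (J x) ∧ G t (kc θ β c) x s ≤ G t (kc θ β c) x (J x) :=
    fun c => hJAY ι t hne _ (kc_nonneg θ β c)
  choose J hJ using hJex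
  have hcl : ∀ x, ∃ c : ℤ, 0 < V x → V x ≤ (4 : ℝ) ^ (-c) ∧ (4 : ℝ) ^ (-c) < 4 * V x := by
    intro x
    by_cases h : 0 < V x
    · obtain ⟨c, hc⟩ := exists_class (V x) h
      exact ⟨c, fun _ => hc⟩
    · exact ⟨0, fun h' => absurd h' h⟩
  choose cl hcl using hcl
  classical
  -- pointwise bound
  have hpt : ∀ s ∈ 𝒥, ∀ x ∈ X, min (V x) (Fw t w β x s) ≤
      (if ¬ Up x s then V x else 0) + (if s = J (cl x) x then V x else 0) + κ * θ * V x +
      (if 0 < V x ∧ Up x s ∧ s ≠ J (cl x) x then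
        (4 : ℝ) ^ (-(cl x)) * Yw t w (fun v => kc θ β (cl x) v ^ 2) x s else 0) := by
    intro s hs x hx
    have hV0 := hV x hx
    have hY0 : 0 ≤ (if 0 < V x ∧ Up x s ∧ s ≠ J (cl x) x then
        (4 : ℝ) ^ (-(cl x)) * Yw t w (fun v => kc θ β (cl x) v ^ 2) x s else 0) := by
      split_ifs
      · refine mul_nonneg (by positivity) ?_
        unfold Yw
        refine sum_nonneg fun n hn => ?_
        split_ifs
        · exact le_min zero_le_one (mul_nonneg (hw n (mem_range.1 hn)) (sq_nonneg _))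
        · exact le_rfl
      · exact le_rfl
    have hθV : 0 ≤ κ * θ * V x := mul_nonneg (by positivity) hV0
    have hminV : min (V x) (Fw t w β x s) ≤ V x := min_le_left _ _
    by_cases h1 : Up x s
    · by_cases h2 : s = J (cl x) x
      · have e1 : (if s = J (cl x) x then V x else 0) = V x := if_pos h2
        have e2 : 0 ≤ (if ¬ Up x s then V x else 0) := ite_nonneg_of hV0
        linarith
      · have e2 : 0 ≤ (if ¬ Up x s then V x else 0) := ite_nonneg_of hV0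
        have e1 : 0 ≤ (if s = J (cl x) x then V x else 0) := ite_nonneg_of hV0
        rcases eq_or_lt_of_le hV0 with h3 | h3
        · linarith
        · rw [if_pos (⟨h3, h1, h2⟩ : 0 < V x ∧ Up x s ∧ s ≠ J (cl x) x)]
          obtain ⟨h4, h5⟩ := hcl x h3
          have h6 := vertex hκ hθ t w hw hβ0 x s (hWt s hs) h4 h5
          linarith
    · have e1 : (if ¬ Up x s then V x else 0) = V x := if_pos h1
      have e2 : 0 ≤ (if s = J (cl x) x then V x else 0) := ite_nonneg_of hV0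
      linarith
  -- the three simple sums
  have hsum1 : ∀ x ∈ X, ∑ s ∈ 𝒥, (if ¬ Up x s then V x else 0) ≤ V x := by
    intro x hx
    rw [← sum_filter, sum_const, nsmul_eq_mul]
    have := card_notUp x 𝒥
    calc ((𝒥.filter fun s => ¬ Up x s).card : ℝ) * V x ≤ 1 * V x :=
          mul_le_mul_of_nonneg_right (by exact_mod_cast this) (hV x hx)
      _ = V x := one_mul _
  have hsum2 : ∀ x ∈ X, ∑ s ∈ 𝒥, (if s = J (cl x) x then V x else 0) ≤ V x := by
    intro x hx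
    rw [sum_ite_eq']
    split_ifs
    · exact le_rfl
    · exact hV x hx
  have hsum3 : ∀ x ∈ X, ∑ s ∈ 𝒥, κ * θ * V x ≤ κ * θ * N * V x := by
    intro x hx
    rw [sum_const, nsmul_eq_mul]
    have h1 : (𝒥.card : ℝ) ≤ N := by exact_mod_cast h𝒥
    have h2 : 0 ≤ κ * θ * V x := mul_nonneg (by positivity) (hV x hx)
    calc (𝒥.card : ℝ) * (κ * θ * V x) ≤ N * (κ * θ * V x) := mul_le_mul_of_nonneg_right h1 h2
      _ = κ * θ * N * V x := by ring
  -- the main sum
  set X' := X.filter fun x => 0 < V x with hX'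
  set Cs := X'.image cl with hCs
  have hmain : ∑ x ∈ X, ∑ s ∈ 𝒥, (if 0 < V x ∧ Up x s ∧ s ≠ J (cl x) x then
        (4 : ℝ) ^ (-(cl x)) * Yw t w (fun v => kc θ β (cl x) v ^ 2) x s else 0) ≤
      Λ N * (4 / Real.sqrt θ) := by
    have e1 : ∑ x ∈ X, ∑ s ∈ 𝒥, (if 0 < V x ∧ Up x s ∧ s ≠ J (cl x) x then
        (4 : ℝ) ^ (-(cl x)) * Yw t w (fun v => kc θ β (cl x) v ^ 2) x s else 0) =
        ∑ x ∈ X', ∑ s ∈ 𝒥, (if Up x s ∧ s ≠ J (cl x) x then
        (4 : ℝ) ^ (-(cl x)) * Yw t w (fun v => kc θ β (cl x) v ^ 2) x s else 0) := by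
      rw [hX', sum_filter]
      refine sum_congr rfl fun x _ => ?_
      by_cases h : 0 < V x
      · rw [if_pos h]
        refine sum_congr rfl fun s _ => ?_
        simp only [h, true_and]
      · rw [if_neg h]
        refine sum_eq_zero fun s _ => ?_
        rw [if_neg]
        exact fun h' => h h'.1
    rw [e1, ← sum_fiberwise_of_maps_to (fun x hx => mem_image_of_mem cl hx : ∀ x ∈ X', cl x ∈ Cs)]
    have e2 : ∀ c ∈ Cs, ∑ x ∈ X'.filter (fun x => cl x = c), ∑ s ∈ 𝒥,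
        (if Up x s ∧ s ≠ J (cl x) x then
          (4 : ℝ) ^ (-(cl x)) * Yw t w (fun v => kc θ β (cl x) v ^ 2) x s else 0) ≤
        (4 : ℝ) ^ (-c) * (Λ N * ∑ v ∈ S, kc θ β c v) := by
      intro c _
      have e3 : ∑ x ∈ X'.filter (fun x => cl x = c), ∑ s ∈ 𝒥,
          (if Up x s ∧ s ≠ J (cl x) x then
            (4 : ℝ) ^ (-(cl x)) * Yw t w (fun v => kc θ β (cl x) v ^ 2) x s else 0) =
          (4 : ℝ) ^ (-c) * ∑ p ∈ ((X'.filter (fun x => cl x = c)) ×ˢ 𝒥).filter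
            (fun p => Up p.1 p.2 ∧ p.2 ≠ J c p.1), Yw t w (fun v => kc θ β c v ^ 2) p.1 p.2 := by
        have e5 : ∑ p ∈ ((X'.filter (fun x => cl x = c)) ×ˢ 𝒥).filter
            (fun p => Up p.1 p.2 ∧ p.2 ≠ J c p.1), Yw t w (fun v => kc θ β c v ^ 2) p.1 p.2 =
            ∑ x ∈ X'.filter (fun x => cl x = c), ∑ s ∈ 𝒥, (if Up x s ∧ s ≠ J c x then
              Yw t w (fun v => kc θ β c v ^ 2) x s else 0) := by
          rw [sum_filter, sum_product]
        rw [e5, mul_sum]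
        refine sum_congr rfl fun x hx => ?_
        rw [mul_sum]
        refine sum_congr rfl fun s _ => ?_
        rw [(mem_filter.1 hx).2]
        split_ifs
        · rfl
        · rw [mul_zero]
      rw [e3]
      refine mul_le_mul_of_nonneg_left ?_ (by positivity)
      refine hΛ N hN ι t ht w hwκ hwsum S (kc θ β c) (kc_alt hθ β c) ?_ (J c) (hJ c) _ ?_
      · intro v hv
        unfold kc
        rw [if_neg]
        rw [hβS v hv, mul_zero]
        push Not
        linarith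
      · intro p hp
        exact (mem_filter.1 hp).2
    refine (sum_le_sum e2).trans ?_
    have e4 : ∑ c ∈ Cs, (4 : ℝ) ^ (-c) * (Λ N * ∑ v ∈ S, kc θ β c v) =
        Λ N * ∑ v ∈ S, ∑ c ∈ Cs, (4 : ℝ) ^ (-c) * kc θ β c v := by
      rw [sum_comm, mul_sum]
      refine sum_congr rfl fun c _ => ?_
      rw [← mul_sum]
      ring
    rw [e4]
    refine mul_le_mul_of_nonneg_left ?_ (hΛ0 N)
    calc ∑ v ∈ S, ∑ c ∈ Cs, (4 : ℝ) ^ (-c) * kc θ β c v ≤ ∑ v ∈ S, 4 / Real.sqrt θ * β v :=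
          sum_le_sum fun v _ => kc_sum hPOW hθ hβ0 Cs v
      _ = 4 / Real.sqrt θ * ∑ v ∈ S, β v := by rw [mul_sum]
      _ ≤ 4 / Real.sqrt θ * 1 := mul_le_mul_of_nonneg_left hβ1 (by positivity)
      _ = 4 / Real.sqrt θ := mul_one _
  -- conclusion
  calc ∑ s ∈ 𝒥, ∑ x ∈ X, min (V x) (Fw t w β x s) = ∑ x ∈ X, ∑ s ∈ 𝒥, min (V x) (Fw t w β x s) :=
        sum_comm
    _ ≤ ∑ x ∈ X, ∑ s ∈ 𝒥, ((if ¬ Up x s then V x else 0) + (if s = J (cl x) x then V x else 0) +
        κ * θ * V x + (if 0 < V x ∧ Up x s ∧ s ≠ J (cl x) x then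
        (4 : ℝ) ^ (-(cl x)) * Yw t w (fun v => kc θ β (cl x) v ^ 2) x s else 0)) :=
        sum_le_sum fun x hx => sum_le_sum fun s hs => hpt s hs x hx
    _ = ∑ x ∈ X, ((∑ s ∈ 𝒥, (if ¬ Up x s then V x else 0)) +
        (∑ s ∈ 𝒥, (if s = J (cl x) x then V x else 0)) + ∑ s ∈ 𝒥, κ * θ * V x) +
        ∑ x ∈ X, ∑ s ∈ 𝒥, (if 0 < V x ∧ Up x s ∧ s ≠ J (cl x) x then
        (4 : ℝ) ^ (-(cl x)) * Yw t w (fun v => kc θ β (cl x) v ^ 2) x s else 0) := by
        rw [← sum_add_distrib]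
        refine sum_congr rfl fun x _ => ?_
        rw [sum_add_distrib, sum_add_distrib, sum_add_distrib]
    _ ≤ ∑ x ∈ X, (V x + V x + κ * θ * N * V x) + Λ N * (4 / Real.sqrt θ) := by
        refine add_le_add (sum_le_sum fun x hx => ?_) hmain
        exact add_le_add (add_le_add (hsum1 x hx) (hsum2 x hx)) (hsum3 x hx)
    _ = (2 + κ * θ * N) * ∑ x ∈ X, V x + Λ N * (4 / Real.sqrt θ) := by
        congr 1
        rw [mul_sum]
        refine sum_congr rfl fun x _ => ?_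
        ring

end Pool.Agent.H81.FCX
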