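import Pool.Agent.H81.FX.Targets

set_option autoImplicit false

namespace Pool.Agent.H81.FCX

open Pool.Agent.H81.FX Finset Filter Topology

section
variable {ι : Type}

theorem iv_iv (s : Lt ι) : iv (iv s) = s := by
  unfold iv
  simp

/-- the reversed word -/
def rv (t : List (Lt ι)) : List (Lt ι) := FreeGroup.invRev t

theorem rv_length (t : List (Lt ι)) : (rv t).length = t.length := FreeGroup.invRev_length

theorem rv_get (t : List (Lt ι)) (n : ℕ) (hn : n < t.length) :
    (rv t)[t.length - 1 - n]? = some (iv t[n]) := by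
  unfold rv FreeGroup.invRev
  rw [List.getElem?_reverse (by simp; omega)]
  simp only [List.length_map, List.getElem?_map]
  rw [show t.length - 1 - (t.length - 1 - n) = n by omega, List.getElem?_eq_getElem hn]
  rfl

theorem rv_pre (t : List (Lt ι)) (j : ℕ) :
    pre t (t.length - j) * (pre (rv t) j)⁻¹ = pre t t.length := by
  unfold pre rv
  have h1 : (FreeGroup.invRev t).take j = FreeGroup.invRev (t.drop (t.length - j)) := by
    unfold FreeGroup.invRev
    rw [List.take_reverse]
    simp [List.map_drop]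
  rw [h1, ← FreeGroup.inv_mk, inv_inv, FreeGroup.mul_mk, List.take_append_drop, List.take_length]

theorem rv_reduced [DecidableEq ι] {t : List (Lt ι)} (h : FreeGroup.IsReduced t) :
    FreeGroup.IsReduced (rv t) := by
  rw [FreeGroup.isReduced_iff_reduce_eq] at h ⊢
  unfold rv
  rw [FreeGroup.reduce_invRev, h]

theorem rv_term (t : List (Lt ι)) (n : ℕ) (hn : n < t.length) (x : FreeGroup ι) :
    x * (pre (rv t) (t.length - 1 - n))⁻¹ * (pre t t.length)⁻¹ = x * (pre t (n + 1))⁻¹ := by
  have h := rv_pre t (t.length - 1 - n)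
  rw [show t.length - (t.length - 1 - n) = n + 1 by omega] at h
  rw [← h]
  group

theorem cond_iff (t : List (Lt ι)) (n : ℕ) (hn : n < t.length) (s : Lt ι) :
    (rv t)[t.length - 1 - n]? = some (iv s) ↔ t[n]? = some s := by
  rw [rv_get t n hn, List.getElem?_eq_getElem hn]
  constructor
  · intro h
    have h1 := congrArg iv (Option.some.inj h)
    rw [iv_iv, iv_iv] at h1
    rw [h1]
  · intro h
    rw [Option.some.inj h]

variable [DecidableEq ι]

theorem Fw_rv (t : List (Lt ι)) (w : ℕ → ℝ) (β : FreeGroup ι → ℝ) (x : FreeGroup ι) (s : Lt ι) :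
    Fw (rv t) (fun j => w (t.length - 1 - j)) (fun h => β (h * (pre t t.length)⁻¹)) x (iv s) =
      Fa t w β x s := by
  unfold Fw Fa
  rw [rv_length, ← sum_range_reflect]
  refine sum_congr rfl fun n hn => ?_
  have hn' := mem_range.1 hn
  beta_reduce
  rw [rv_term t n hn' x, show t.length - 1 - (t.length - 1 - n) = n by omega]
  simp only [cond_iff t n hn' s]

theorem Wt_rv (t : List (Lt ι)) (w : ℕ → ℝ) (s : Lt ι) :
    Wt (rv t) (fun j => w (t.length - 1 - j)) (iv s) = Wt t w s := by
  unfold Wt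
  rw [rv_length, ← sum_range_reflect]
  refine sum_congr rfl fun n hn => ?_
  have hn' := mem_range.1 hn
  beta_reduce
  rw [show t.length - 1 - (t.length - 1 - n) = n by omega]
  simp only [cond_iff t n hn' s]

end

theorem pf_ARRP (hONEP : T_ONEP) (_hPRE : T_PRE) : T_ARRP := by
  intro κ V₀ δ₂ hκ hV₀ hδ
  obtain ⟨B, hB⟩ := hONEP κ V₀ δ₂ hκ hV₀ hδ
  refine ⟨B, ?_⟩
  intro ι _ t ht S β hβ X V hV 𝒥 w hw hWt hF
  have hinj : Function.Injective (iv : Lt ι → Lt ι) := fun a b h => by
    have := congrArg iv h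
    rwa [iv_iv, iv_iv] at this
  rw [← card_image_of_injective 𝒥 hinj]
  refine hB ι (rv t) (rv_reduced ht) (S.image (fun h => h * pre t t.length))
    (fun h => β (h * (pre t t.length)⁻¹)) ?_ X V hV (𝒥.image iv)
    (fun s j => w (iv s) (t.length - 1 - j)) ?_ ?_ ?_
  · refine ⟨fun h => hβ.1 _, fun h hh => hβ.2.1 _ fun h' => hh ?_, ?_⟩
    · refine mem_image.2 ⟨_, h', ?_⟩
      group
    · rw [sum_image (fun a _ b _ h => mul_right_cancel h)]
      refine le_trans (le_of_eq (sum_congr rfl fun h _ => ?_)) hβ.2.2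
      simp
  · intro s hs j hj
    obtain ⟨s', hs', rfl⟩ := mem_image.1 hs
    simp only [iv_iv]
    refine hw s' hs' _ ?_
    rw [rv_length] at hj
    omega
  · intro s hs
    obtain ⟨s', hs', rfl⟩ := mem_image.1 hs
    simp only [iv_iv]
    rw [Wt_rv]
    exact hWt s' hs'
  · intro s hs
    obtain ⟨s', hs', rfl⟩ := mem_image.1 hs
    simp only [iv_iv]
    refine (hF s' hs').trans (le_of_eq (sum_congr rfl fun x _ => ?_))
    rw [Fw_rv]

end Pool.Agent.H81.FCX
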