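import Pool.Agent.H81.FX.Targets

set_option autoImplicit false

namespace Pool.Agent.H81.FCX

open Pool.Agent.H81.FX Finset Filter Topology

theorem sum_min_le {α : Type} [DecidableEq α] (Ξ X : Finset α) (V F : α → ℝ) (hV : ∀ x, 0 ≤ V x)
    (hVX : ∀ x, x ∉ X → V x = 0) (hF : ∀ x, 0 ≤ F x) :
    ∑ ξ ∈ Ξ, min (V ξ) (F ξ) ≤ ∑ ξ ∈ X, min (V ξ) (F ξ) := by
  have h1 : ∑ ξ ∈ Ξ, min (V ξ) (F ξ) = ∑ ξ ∈ Ξ ∩ X, min (V ξ) (F ξ) := by
    refine (sum_subset inter_subset_left fun x hx hx' => ?_).symm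
    have h2 : x ∉ X := fun h => hx' (mem_inter.2 ⟨hx, h⟩)
    rw [hVX x h2, min_eq_left (hF x)]
  rw [h1]
  exact sum_le_sum_of_subset_of_nonneg inter_subset_right fun x _ _ => le_min (hV x) (hF x)

theorem pf_G2 (hTREE : T_TREE) (hCLM : T_CLM) : T_G2 := by
  intro m ε τ ε₂ hε hτ hε₂
  have hm : (0 : ℝ) ≤ m / ε := by positivity
  obtain ⟨B, hB⟩ := hTREE 10 (10 * (m / ε) + 1) ε₂ τ (by norm_num) (by positivity) hε₂ hτ
  refine ⟨m * B, ?_⟩
  intro ι _ S b hb T hT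
  classical
  set V : FreeGroup ι → ℝ := fun ξ => 10 * Cl S b ε ξ with hVdef
  set X : Finset (FreeGroup ι) := image₂ (fun g g' => g * g'⁻¹) S S with hX
  have hCl0 : ∀ ξ, 0 ≤ Cl S b ε ξ := by
    intro ξ
    unfold Cl
    refine sum_nonneg fun i _ => sum_nonneg fun g _ => ?_
    split_ifs
    · exact norm_nonneg _
    · exact le_rfl
  have hV0 : ∀ ξ, 0 ≤ V ξ := fun ξ => by
    rw [hVdef]
    exact mul_nonneg (by norm_num) (hCl0 ξ)
  have hVX : ∀ ξ, ξ ∉ X → V ξ = 0 := by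
    intro ξ hξ
    have h1 : Cl S b ε ξ = 0 := by
      unfold Cl
      refine sum_eq_zero fun i _ => sum_eq_zero fun g hg => ?_
      have h2 : ξ * g ∉ S := fun h => hξ (by
        rw [hX]
        exact mem_image₂.2 ⟨ξ * g, h, g, hg, by group⟩)
      rw [(hb i).1 _ h2, norm_zero]
      split_ifs <;> rfl
    rw [hVdef]
    simp only
    rw [h1, mul_zero]
  have hMV : Mass X V (10 * (m / ε) + 1) := by
    refine ⟨hV0, hVX, ?_⟩
    rw [hVdef]
    simp only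
    rw [← mul_sum]
    have := (hCLM m ε hε ι S b hb).1 X
    linarith
  have hMb : ∀ i, Mass S (fun h => ‖b i h‖) 1 := by
    intro i
    refine ⟨fun h => norm_nonneg _, fun h hh => ?_, (hb i).2.2⟩
    beta_reduce
    rw [(hb i).1 h hh, norm_zero]
  -- the predicate
  let P : Fin m → Lt ι → Finset (FreeGroup ι) → (FreeGroup ι → ℝ) → Prop := fun i s R w =>
    (∀ r ∈ R, 0 ≤ w r ∧ Up r s ∧ r * el s ∈ Tree S (fun h => ‖b i h‖) τ) ∧ ∑ r ∈ R, w r ≤ 10 ∧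
    (ε₂ ≤ ∑ ξ ∈ X, min (V ξ) (∑ r ∈ R, w r * ‖b i (ξ * r⁻¹)‖) ∨
      ε₂ ≤ ∑ ξ ∈ X, min (V ξ) (∑ r ∈ R, w r * ‖b i (ξ * (r * el s)⁻¹)‖))
  have hbad : ∀ s ∈ T, ∃ i R w, P i s R w := by
    intro s hs
    have h1 := hT s hs
    unfold Good2 at h1
    push Not at h1
    obtain ⟨i, R, w, h2, h3, Ξ, h4⟩ := h1
    refine ⟨i, R, w, h2, h3, ?_⟩
    have hF : ∀ f : FreeGroup ι → FreeGroup ι, ∀ ξ, 0 ≤ ∑ r ∈ R, w r * ‖b i (ξ * f r)‖ :=
      fun f ξ => sum_nonneg fun r hr => mul_nonneg (h2 r hr).1 (norm_nonneg _)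
    by_cases h5 : ∑ ξ ∈ Ξ, min (10 * Cl S b ε ξ) (∑ r ∈ R, w r * ‖b i (ξ * r⁻¹)‖) ≤ ε₂
    · right
      exact (h4 h5).le.trans (sum_min_le Ξ X V _ hV0 hVX (hF fun r => (r * el s)⁻¹))
    · left
      push Not at h5
      exact h5.le.trans (sum_min_le Ξ X V _ hV0 hVX (hF fun r => r⁻¹))
  have hcov : T ⊆ univ.biUnion fun i : Fin m => T.filter fun s => ∃ R w, P i s R w := by
    intro s hs
    obtain ⟨i, R, w, h⟩ := hbad s hs
    exact mem_biUnion.2 ⟨i, mem_univ i, mem_filter.2 ⟨hs, R, w, h⟩⟩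
  refine (card_le_card hcov).trans (card_biUnion_le.trans ?_)
  have hone : ∀ i : Fin m, (T.filter fun s => ∃ R w, P i s R w).card ≤ B := by
    intro i
    have h6 : ∀ s, ∃ R w, s ∈ (T.filter fun s => ∃ R w, P i s R w) → P i s R w := by
      intro s
      by_cases h : s ∈ (T.filter fun s => ∃ R w, P i s R w)
      · obtain ⟨R, w, h'⟩ := (mem_filter.1 h).2
        exact ⟨R, w, fun _ => h'⟩
      · exact ⟨∅, 0, fun h' => absurd h' h⟩
    choose R w hRw using h6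
    exact hB ι S (fun h => ‖b i h‖) (hMb i) X V hMV _ R w (fun s hs => (hRw s hs).1)
      (fun s hs => (hRw s hs).2.1) (fun s hs => (hRw s hs).2.2)
  calc ∑ i : Fin m, (T.filter fun s => ∃ R w, P i s R w).card ≤ ∑ _i : Fin m, B :=
        sum_le_sum fun i _ => hone i
    _ = m * B := by rw [sum_const, card_univ, Fintype.card_fin, smul_eq_mul]

end Pool.Agent.H81.FCX
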