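import Pool.Agent.H81.FX.Targets

set_option autoImplicit false

namespace Pool.Agent.H81.FCX

open Pool.Agent.H81.FX Finset Filter Topology

section
variable {ι : Type}

/-- convolution -/
noncomputable def cc (b c : FreeGroup ι → ℂ) (x : FreeGroup ι) : ℂ := ∑' y, b y * c (y⁻¹ * x)

theorem cc_split (hYNG : T_YNG) {b b' c c' : FreeGroup ι → ℂ} (hb : Summable b)
    (hb' : Summable b') (hc : Summable c) (hc' : Summable c') (x : FreeGroup ι) :
    cc b c x - cc b' c' x = cc (fun g => b g - b' g) c x + cc b' (fun g => c g - c' g) x := by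
  have h1 := (hYNG ι b c hb hc).2.1 x
  have h2 := (hYNG ι b' c hb' hc).2.1 x
  have h3 := (hYNG ι b' c' hb' hc').2.1 x
  unfold cc
  have e1 : ∑' y, (b y - b' y) * c (y⁻¹ * x) = ∑' y, b y * c (y⁻¹ * x) - ∑' y, b' y * c (y⁻¹ * x) := by
    rw [← h1.tsum_sub h2]
    exact tsum_congr fun y => by ring
  have e2 : ∑' y, b' y * (c (y⁻¹ * x) - c' (y⁻¹ * x)) =
      ∑' y, b' y * c (y⁻¹ * x) - ∑' y, b' y * c' (y⁻¹ * x) := by
    rw [← h2.tsum_sub h3]
    exact tsum_congr fun y => by ring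
  rw [e1, e2]
  ring

theorem cc_fin {b c : FreeGroup ι → ℂ} (Z : Finset (FreeGroup ι)) (hc : ∀ z, z ∉ Z → c z = 0)
    (x : FreeGroup ι) : cc b c x = ∑ z ∈ Z, b (x * z⁻¹) * c z := by
  unfold cc
  let e : FreeGroup ι ≃ FreeGroup ι := (Equiv.inv _).trans (Equiv.mulLeft x)
  have he : ∀ z, e z = x * z⁻¹ := fun z => rfl
  rw [← e.tsum_eq]
  have h1 : ∀ z, b (e z) * c ((e z)⁻¹ * x) = b (x * z⁻¹) * c z := by
    intro z
    rw [he]
    congr 2
    group
  simp_rw [h1]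
  refine tsum_eq_sum fun z hz => ?_
  rw [hc z hz, mul_zero]

theorem sum_le_tsum_cc (hYNG : T_YNG) {b c : FreeGroup ι → ℂ} (hb : Summable b) (hc : Summable c)
    (Ξ : Finset (FreeGroup ι)) {B C : ℝ} (hB : ∑' g, ‖b g‖ ≤ B) (hC : ∑' g, ‖c g‖ ≤ C)
    (hC0 : 0 ≤ C) : ∑ x ∈ Ξ, ‖cc b c x‖ ≤ B * C := by
  obtain ⟨h1, -, h3⟩ := hYNG ι b c hb hc
  have h4 : ∑ x ∈ Ξ, ‖cc b c x‖ ≤ ∑' x, ‖∑' y, b y * c (y⁻¹ * x)‖ :=
    h1.sum_le_tsum Ξ fun _ _ => norm_nonneg _
  have h5 : 0 ≤ ∑' g, ‖b g‖ := tsum_nonneg fun _ => norm_nonneg _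
  have h6 : 0 ≤ ∑' g, ‖c g‖ := tsum_nonneg fun _ => norm_nonneg _
  calc _ ≤ _ := h4
    _ ≤ _ := h3
    _ ≤ B * C := mul_le_mul hB hC h6 (h5.trans hB)

/-- a finite set carrying most of finitely many summable functions -/
theorem exists_tail {m : ℕ} (C : Fin m → FreeGroup ι → ℂ) (hC : ∀ i, Summable (C i)) {η : ℝ}
    (hη : 0 < η) : ∃ Z : Finset (FreeGroup ι), ∀ i,
      ∑' z, ‖C i z - Set.indicator (Z : Set (FreeGroup ι)) (C i) z‖ ≤ η := by
  classical
  have h1 : ∀ i, ∃ Z : Finset (FreeGroup ι), ∀ Z' : Finset (FreeGroup ι), Z ⊆ Z' →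
      ∑' z, ‖C i z - Set.indicator (Z' : Set (FreeGroup ι)) (C i) z‖ ≤ η := by
    intro i
    have hs : Summable fun z => ‖C i z‖ := (hC i).norm
    have h2 := hs.hasSum
    rw [HasSum] at h2
    have h3 := (Metric.tendsto_nhds.1 h2) η hη
    simp only [SummationFilter.unconditional_filter, eventually_atTop] at h3
    obtain ⟨Z, hZ⟩ := h3
    refine ⟨Z, fun Z' hZZ' => ?_⟩
    have h4 := hZ Z' hZZ'
    rw [Real.dist_eq] at h4
    have h5 : ∑' z, ‖C i z - Set.indicator (Z' : Set (FreeGroup ι)) (C i) z‖ =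
        ∑' z, ‖C i z‖ - ∑ z ∈ Z', ‖C i z‖ := by
      have h6 : ∀ z, ‖C i z - Set.indicator (Z' : Set (FreeGroup ι)) (C i) z‖ =
          ‖C i z‖ - Set.indicator (Z' : Set (FreeGroup ι)) (fun z => ‖C i z‖) z := by
        intro z
        by_cases hz : z ∈ (Z' : Set (FreeGroup ι))
        · rw [Set.indicator_of_mem hz, Set.indicator_of_mem hz]
          simp
        · rw [Set.indicator_of_notMem hz, Set.indicator_of_notMem hz]
          simp
      simp_rw [h6]
      rw [hs.tsum_sub (hs.indicator _)]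
      congr 1
      rw [tsum_eq_sum (s := Z')]
      · exact sum_congr rfl fun z hz => Set.indicator_of_mem (by exact_mod_cast hz) _
      · intro z hz
        exact Set.indicator_of_notMem (by exact_mod_cast hz) _
    rw [h5]
    have h7 := (abs_lt.1 h4).1
    linarith
  choose Z hZ using h1
  exact ⟨univ.biUnion Z, fun i => hZ i _ (subset_biUnion_of_mem Z (mem_univ i))⟩

theorem dl_eq [DecidableEq ι] (k : ι) (x : FreeGroup ι) :
    dl (FreeGroup.of k) x = Set.indicator {1} 1 x - Set.indicator {FreeGroup.of k} 1 x := by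
  unfold dl
  simp [Set.indicator_apply]

end

theorem pf_MAIN (hFIN : T_FIN) (hYNG : T_YNG) (hDAP : T_DAP) : T_MAIN := by
  intro m δ hδ
  obtain ⟨N, hN⟩ := hFIN m (δ / 2) (by positivity)
  refine ⟨N, fun ι b hb hb0 => ?_⟩
  classical
  set Bn : Fin m → ℝ := fun i => ∑' g, ‖b i g‖ with hBn
  have hBn0 : ∀ i, 0 ≤ Bn i := fun i => tsum_nonneg fun _ => norm_nonneg _
  set bh : Fin m → FreeGroup ι → ℂ := fun i g => (Bn i : ℂ)⁻¹ * b i g with hbh
  have hbhs : ∀ i, Summable (bh i) := fun i => (hb i).mul_left _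
  have hbh0 : ∀ i, ∑' g, bh i g = 0 := by
    intro i
    rw [hbh]
    simp only
    rw [tsum_mul_left, hb0 i, mul_zero]
  have hbh1 : ∀ i, ∑' g, ‖bh i g‖ ≤ 1 := by
    intro i
    rw [hbh]
    simp only [norm_mul, norm_inv, Complex.norm_real, Real.norm_eq_abs]
    rw [tsum_mul_left, abs_of_nonneg (hBn0 i)]
    exact inv_mul_le_one
  have hbb : ∀ i g, b i g = Bn i * bh i g := by
    intro i g
    by_cases h : Bn i = 0
    · have h1 : ‖b i g‖ ≤ 0 := by
        rw [← h]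
        exact (hb i).norm.le_tsum g fun _ _ => norm_nonneg _
      have h2 : b i g = 0 := norm_le_zero_iff.1 h1
      rw [h2, h]
      simp
    · rw [hbh]
      simp only
      rw [← mul_assoc, mul_inv_cancel₀ (by exact_mod_cast h), one_mul]
  set η : ℝ := δ / (10 * (m + 10)) with hη
  have hη0 : 0 < η := by positivity
  have happ : ∀ i, ∃ (S : Finset (FreeGroup ι)) (b' : FreeGroup ι → ℂ),
      (∀ g, g ∉ S → b' g = 0) ∧ ∑ g ∈ S, b' g = 0 ∧ ∑ g ∈ S, ‖b' g‖ ≤ 1 ∧
        ∑' g, ‖bh i g - b' g‖ ≤ η := fun i => hDAP ι (bh i) (hbhs i) (hbh0 i) (hbh1 i) η hη0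
  choose Si b' h1 h2 h3 h4 using happ
  set S := univ.biUnion Si with hS
  have hsub : ∀ i, Si i ⊆ S := fun i => subset_biUnion_of_mem Si (mem_univ i)
  have hBs : Bs S b' := by
    intro i
    refine ⟨fun g hg => h1 i g fun h => hg (hsub i h), ?_, ?_⟩
    · rw [← sum_subset (hsub i) fun g _ hg => h1 i g hg]
      exact h2 i
    · rw [← sum_subset (hsub i) fun g _ hg => by rw [h1 i g hg, norm_zero]]
      exact h3 i
  have hb's : ∀ i, Summable (b' i) := fun i => summable_of_ne_finset_zero (s := Si i) (h1 i)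
  have hb'1 : ∀ i, ∑' g, ‖b' i g‖ ≤ 1 := by
    intro i
    rw [tsum_eq_sum (s := Si i) fun g hg => by rw [h1 i g hg, norm_zero]]
    exact h3 i
  obtain ⟨T, hT, hk⟩ := hN ι S b' hBs
  refine ⟨T, hT, fun k hkT c hc => ?_⟩
  have hE0 : 0 ≤ ∑' x, ‖(Set.indicator {1} 1 x - Set.indicator {FreeGroup.of k} 1 x : ℂ) -
      ∑ i, ∑' y, b i y * c i (y⁻¹ * x)‖ := tsum_nonneg fun _ => norm_nonneg _
  by_cases hbig : 10 ≤ ∑ i, Bn i * ∑' g, ‖c i g‖
  · have : ∑ i, Bn i * ∑' g, ‖c i g‖ = ∑ i, (∑' g, ‖b i g‖) * ∑' g, ‖c i g‖ := rfl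
    rw [← this]
    linarith
  push Not at hbig
  set Ch : Fin m → FreeGroup ι → ℂ := fun i z => (Bn i : ℂ) * c i z with hCh
  have hChs : ∀ i, Summable (Ch i) := fun i => (hc i).mul_left _
  have hChn : ∀ i, ∑' z, ‖Ch i z‖ = Bn i * ∑' z, ‖c i z‖ := by
    intro i
    rw [hCh]
    simp only [norm_mul, Complex.norm_real, Real.norm_eq_abs]
    rw [tsum_mul_left, abs_of_nonneg (hBn0 i)]
  obtain ⟨Z, hZ⟩ := exists_tail Ch hChs hη0
  set c' : Fin m → FreeGroup ι → ℂ := fun i => Set.indicator (Z : Set (FreeGroup ι)) (Ch i) with hc'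
  have hc'0 : ∀ i, ∀ z, z ∉ Z → c' i z = 0 := by
    intro i z hz
    exact Set.indicator_of_notMem (by exact_mod_cast hz) _
  have hc's : ∀ i, Summable (c' i) := fun i => (hChs i).indicator _
  set Ξ : Finset (FreeGroup ι) := insert 1 (insert (FreeGroup.of k) (image₂ (· * ·) S Z)) with hΞ
  have hfin := hk k hkT c' Z Ξ
    (fun s hs z hz => by
      rw [hΞ]
      exact mem_insert_of_mem (mem_insert_of_mem (mem_image₂_of_mem hs hz)))
    (by rw [hΞ]; exact mem_insert_self _ _)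
    (by rw [hΞ]; exact mem_insert_of_mem (mem_insert_self _ _))
  -- the first term
  have hfirst : ∑ i, ∑ z ∈ Z, ‖c' i z‖ ≤ ∑ i, Bn i * ∑' g, ‖c i g‖ := by
    refine sum_le_sum fun i _ => ?_
    rw [← hChn i]
    refine le_trans (le_of_eq (sum_congr rfl fun z hz => ?_))
      ((hChs i).norm.sum_le_tsum Z fun _ _ => norm_nonneg _)
    rw [hc']
    simp only
    rw [Set.indicator_of_mem (by exact_mod_cast hz)]
  -- the error
  have hcc : ∀ i x, ∑' y, b i y * c i (y⁻¹ * x) = cc (bh i) (Ch i) x := by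
    intro i x
    unfold cc
    refine tsum_congr fun y => ?_
    rw [hbb i y, hCh]
    simp only
    ring
  have hpt : ∀ x, ‖dl (FreeGroup.of k) x - cv Z b' c' x‖ ≤
      ‖(Set.indicator {1} 1 x - Set.indicator {FreeGroup.of k} 1 x : ℂ) -
        ∑ i, ∑' y, b i y * c i (y⁻¹ * x)‖ +
      ∑ i, (‖cc (fun g => bh i g - b' i g) (Ch i) x‖ + ‖cc (b' i) (fun g => Ch i g - c' i g) x‖) := by
    intro x
    have e1 : dl (FreeGroup.of k) x - cv Z b' c' x =
        ((Set.indicator {1} 1 x - Set.indicator {FreeGroup.of k} 1 x : ℂ) -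
          ∑ i, ∑' y, b i y * c i (y⁻¹ * x)) +
        ∑ i, (cc (fun g => bh i g - b' i g) (Ch i) x + cc (b' i) (fun g => Ch i g - c' i g) x) := by
      have e2 : cv Z b' c' x = ∑ i, cc (b' i) (c' i) x := by
        unfold cv
        exact sum_congr rfl fun i _ => (cc_fin Z (hc'0 i) x).symm
      have e3 : ∑ i, (cc (fun g => bh i g - b' i g) (Ch i) x +
          cc (b' i) (fun g => Ch i g - c' i g) x) =
          ∑ i, cc (bh i) (Ch i) x - ∑ i, cc (b' i) (c' i) x := by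
        rw [← sum_sub_distrib]
        exact sum_congr rfl fun i _ =>
          (cc_split hYNG (hbhs i) (hb's i) (hChs i) (hc's i) x).symm
      rw [e2, e3, dl_eq]
      simp_rw [hcc]
      ring
    rw [e1]
    refine (norm_add_le _ _).trans (add_le_add le_rfl ?_)
    refine (norm_sum_le _ _).trans (sum_le_sum fun i _ => norm_add_le _ _)
  have hsummE : Summable fun x => ‖(Set.indicator {1} 1 x - Set.indicator {FreeGroup.of k} 1 x : ℂ) -
      ∑ i, ∑' y, b i y * c i (y⁻¹ * x)‖ := by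
    refine Summable.norm ?_
    refine Summable.sub (Summable.sub ?_ ?_) (summable_sum fun i _ => ?_)
    · exact summable_of_ne_finset_zero (s := {1}) fun x hx => by
        rw [Set.indicator_of_notMem (by simpa using hx)]
    · exact summable_of_ne_finset_zero (s := {FreeGroup.of k}) fun x hx => by
        rw [Set.indicator_of_notMem (by simpa using hx)]
    · exact (hYNG ι (b i) (c i) (hb i) (hc i)).1.of_norm
  have herr : ∑ ξ ∈ Ξ, ‖dl (FreeGroup.of k) ξ - cv Z b' c' ξ‖ ≤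
      ∑' x, ‖(Set.indicator {1} 1 x - Set.indicator {FreeGroup.of k} 1 x : ℂ) -
        ∑ i, ∑' y, b i y * c i (y⁻¹ * x)‖ + (m + 10) * η := by
    refine (sum_le_sum fun x _ => hpt x).trans ?_
    rw [sum_add_distrib]
    refine add_le_add (hsummE.sum_le_tsum Ξ fun _ _ => norm_nonneg _) ?_
    rw [sum_comm]
    have e4 : ∀ i, ∑ x ∈ Ξ, (‖cc (fun g => bh i g - b' i g) (Ch i) x‖ +
        ‖cc (b' i) (fun g => Ch i g - c' i g) x‖) ≤ η * (Bn i * ∑' g, ‖c i g‖) + η := by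
      intro i
      rw [sum_add_distrib]
      have e5 := sum_le_tsum_cc hYNG ((hbhs i).sub (hb's i)) (hChs i) Ξ (h4 i) (le_of_eq (hChn i))
        (mul_nonneg (hBn0 i) (tsum_nonneg fun _ => norm_nonneg _))
      have e6 := sum_le_tsum_cc hYNG (hb's i) ((hChs i).sub (hc's i)) Ξ (hb'1 i) (hZ i) hη0.le
      linarith
    refine (sum_le_sum fun i _ => e4 i).trans ?_
    rw [sum_add_distrib, ← mul_sum, sum_const, card_univ, Fintype.card_fin, nsmul_eq_mul]
    have e7 := mul_le_mul_of_nonneg_left hbig.le hη0.le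
    linarith
  have hfinal : 5 * ((m + 10) * η) = δ / 2 := by
    rw [hη]
    field_simp
    ring
  have : ∑ i, Bn i * ∑' g, ‖c i g‖ = ∑ i, (∑' g, ‖b i g‖) * ∑' g, ‖c i g‖ := rfl
  rw [← this]
  linarith

end Pool.Agent.H81.FCX
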